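import Pool.Agent.H839R2.Geo.Family
import Pool.Agent.H839R2.Geo.Bridge

set_option autoImplicit false

open scoped Manifold ContDiff Topology
open MeasureTheory Module Metric Set
open Pool.Agent.H839R2 Pool.Agent.H839R2.Geo

namespace Pool.Agent.Results.MP_1301ff_gt.NotDiscrete

/-- The manifold `N = S³ × S²` (product of unit spheres). -/
abbrev N : Type :=
  sphere (0 : EuclideanSpace ℝ (Fin 4)) 1 × sphere (0 : EuclideanSpace ℝ (Fin 3)) 1

/-- The 15-dimensional manifold `M = (S³ × S²) × ((S³ × S²) × (S³ × S²))`. -/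
abbrev M : Type := N × (N × N)

/-- The model vector space of `N`. -/
abbrev E₅ : Type := EuclideanSpace ℝ (Fin 3) × EuclideanSpace ℝ (Fin 2)

/-- The model vector space of `M`. -/
abbrev E : Type := E₅ × (E₅ × E₅)

/-- The model with corners (without boundary) of `M`. -/
noncomputable abbrev I := ((𝓡 3).prod (𝓡 2)).prod (((𝓡 3).prod (𝓡 2)).prod ((𝓡 3).prod (𝓡 2)))

lemma connected_sphere (n : ℕ) (hn : 1 < n) :
    ConnectedSpace (sphere (0 : EuclideanSpace ℝ (Fin n)) 1) := by
  rw [← isConnected_iff_connectedSpace]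
  apply isConnected_sphere _ _ zero_le_one
  rw [← finrank_eq_rank, finrank_euclideanSpace_fin]
  exact_mod_cast hn

lemma prod_real {A B : Type*} [MeasurableSpace A] [MeasurableSpace B] (μ : Measure A)
    (ν : Measure B) [IsFiniteMeasure μ] [IsFiniteMeasure ν] :
    (μ.prod ν).real univ = μ.real univ * ν.real univ := by
  rw [Measure.real, ← univ_prod_univ, Measure.prod_prod, ENNReal.toReal_mul]
  rfl

lemma main_aux :
    (CompactSpace M ∧ ConnectedSpace M ∧ T2Space M ∧ BorelSpace M ∧ IsManifold I ∞ M ∧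
      I.Boundaryless ∧ finrank ℝ E = 15) ∧
    ∃ r ∈ Stmt.einsteinConstants I M, ∀ ε > 0, ∃ r' ∈ Stmt.einsteinConstants I M,
      r' ≠ r ∧ |r' - r| < ε := by
  have c3 : ConnectedSpace (sphere (0 : EuclideanSpace ℝ (Fin 4)) 1) :=
    connected_sphere 4 (by norm_num)
  have c2 : ConnectedSpace (sphere (0 : EuclideanSpace ℝ (Fin 3)) 1) :=
    connected_sphere 3 (by norm_num)
  have hdim : finrank ℝ E = 15 := by simp
  refine ⟨⟨inferInstance, inferInstance, inferInstance, inferInstance, inferInstance,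
    inferInstance, hdim⟩, ?_⟩
  obtain ⟨μ, c, hfin, hc, hvol, hint⟩ := exists_roundVolume
  have hpos : (0 : ℝ) < 2 / (finrank ℝ E : ℝ) := by
    rw [hdim]
    norm_num
  have hi := integral_sqrt_one_sub_sq
  -- the limit metric
  obtain ⟨νT, fT, vT, mT⟩ := volume_embT μ c hvol hint
  obtain ⟨νC, fC, vC, mC⟩ := volume_embB adm_const μ c hvol hint
  have mT' : νT.real univ = c * Real.pi / 27 := by
    rw [mT, intervalIntegral.integral_const_mul, hi]
    ring
  have mC' : νC.real univ ^ 2 = c ^ 2 * Real.pi ^ 2 / 512 := by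
    have h1 : (√(1 / 2 : ℝ)) ^ 2 = 1 / 2 := Real.sq_sqrt (by norm_num)
    rw [mC, intervalIntegral.integral_const_mul, hi]
    have h2 : (c * (√(1 / 2) ^ 3 * (1 / 4) * (Real.pi / 2))) ^ 2 =
        c ^ 2 * Real.pi ^ 2 / 64 * ((√(1 / 2 : ℝ)) ^ 2) ^ 3 := by ring
    rw [h2, h1]
    ring
  have hE0 : IsEinstein I (embT.prod ((embB adm_const).prod (embB adm_const))).metric 4 :=
    embT.einstein_prod ((embB adm_const).prod (embB adm_const)) einstein_embT
      ((embB adm_const).einstein_prod (embB adm_const) (einstein_embB adm_const)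
        (einstein_embB adm_const))
  have hV0 : IsVolume I (embT.prod ((embB adm_const).prod (embB adm_const))).metric
      (νT.prod (νC.prod νC)) :=
    embT.volume_prod ((embB adm_const).prod (embB adm_const)) νT (νC.prod νC) vT
      ((embB adm_const).volume_prod (embB adm_const) νC νC vC vC)
  have hm0 : (νT.prod (νC.prod νC)).real univ = (c * (Real.pi / 24)) ^ 3 := by
    rw [prod_real, prod_real, mT', ← pow_two, mC']
    ring
  -- the function of the volume
  set f : ℝ → ℝ := fun v => 4 * (v ^ 3) ^ (2 / (finrank ℝ E : ℝ)) with hf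
  have hfc : Continuous f := by
    apply continuous_const.mul
    exact (Real.continuous_rpow_const hpos.le).comp (continuous_pow 3)
  have hfm : ∀ v w : ℝ, 0 < v → v < w → f v < f w := by
    intro v w hv hvw
    have h1 : v ^ 3 < w ^ 3 := pow_lt_pow_left₀ hvw hv.le (by norm_num)
    have h2 := Real.rpow_lt_rpow (by positivity) h1 hpos
    simp only [hf]
    linarith
  have hv0 : 0 < c * (Real.pi / 24) := by
    have := Real.pi_pos
    positivity
  refine ⟨f (c * (Real.pi / 24)), ⟨_, 4, _, EmbData.isEinstein _ hE0, EmbData.isVolume _ hV0, ?_⟩,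
    ?_⟩
  · rw [hm0]
  intro ε hε
  obtain ⟨δ, hδ, hδ'⟩ := Metric.continuousAt_iff.1 (hfc.continuousAt (x := c * (Real.pi / 24))) ε hε
  obtain ⟨P, H, hA, l1, l2⟩ := exists_adm (ε := δ / c) (by positivity)
  obtain ⟨ν, fν, vν, mν⟩ := volume_embB hA μ c hvol hint
  set Q := ∫ y in (-1 : ℝ)..1, (√(P y) ^ 3 * H y) * √(1 - y ^ 2) with hQ
  have hE1 : IsEinstein I ((embB hA).prod ((embB hA).prod (embB hA))).metric 4 :=
    (embB hA).einstein_prod ((embB hA).prod (embB hA)) (einstein_embB hA)
      ((embB hA).einstein_prod (embB hA) (einstein_embB hA) (einstein_embB hA))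
  have hV1 : IsVolume I ((embB hA).prod ((embB hA).prod (embB hA))).metric
      (ν.prod (ν.prod ν)) :=
    (embB hA).volume_prod ((embB hA).prod (embB hA)) ν (ν.prod ν) vν
      ((embB hA).volume_prod (embB hA) ν ν vν vν)
  have hm1 : (ν.prod (ν.prod ν)).real univ = (c * Q) ^ 3 := by
    rw [prod_real, prod_real, mν]
    ring
  have k1 : c * (Real.pi / 24) < c * Q := mul_lt_mul_of_pos_left l1 hc
  refine ⟨f (c * Q), ⟨_, 4, _, EmbData.isEinstein _ hE1, EmbData.isVolume _ hV1, ?_⟩,
    (hfm _ _ hv0 k1).ne', ?_⟩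
  · rw [hm1]
  · have k2 : dist (c * Q) (c * (Real.pi / 24)) < δ := by
      rw [Real.dist_eq, abs_of_pos (by linarith)]
      have h1 : c * Q < c * (Real.pi / 24 + δ / c) := mul_lt_mul_of_pos_left l2 hc
      have h2 : c * (Real.pi / 24 + δ / c) = c * (Real.pi / 24) + δ := by field_simp
      linarith
    have k3 := hδ' k2
    rwa [Real.dist_eq] at k3

/-- There is a compact connected Hausdorff smooth manifold `M` without boundary, of dimension 15,
and a normalised Einstein constant `r` of `M` which is a limit of normalised Einstein constants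
`r' ≠ r` of `M`: the set `Λ(M)` of the normalised Einstein constants of `M` is not discrete.
(The proof gives `M = (S³ × S²) × ((S³ × S²) × (S³ × S²))`.) -/
theorem result :
    ∃ (E : Type) (_ : NormedAddCommGroup E) (_ : NormedSpace ℝ E) (_ : FiniteDimensional ℝ E)
      (_ : MeasurableSpace E) (_ : BorelSpace E) (H : Type) (_ : TopologicalSpace H)
      (I : ModelWithCorners ℝ E H) (M : Type) (_ : TopologicalSpace M) (_ : ChartedSpace H M)
      (_ : IsManifold I ∞ M) (_ : MeasurableSpace M) (_ : BorelSpace M),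
      I.Boundaryless ∧ finrank ℝ E = 15 ∧ CompactSpace M ∧ ConnectedSpace M ∧ T2Space M ∧
      ∃ r ∈ Stmt.einsteinConstants I M, ∀ ε > 0, ∃ r' ∈ Stmt.einsteinConstants I M,
        r' ≠ r ∧ |r' - r| < ε := by
  obtain ⟨⟨h1, h2, h3, h4, h5, h6, h7⟩, h8⟩ := main_aux
  exact ⟨E, inferInstance, inferInstance, inferInstance, inferInstance, inferInstance, _,
    inferInstance, I, M, inferInstance, inferInstance, h5, inferInstance, h4, h6, h7, h1, h2, h3,
    h8⟩

end Pool.Agent.Results.MP_1301ff_gt.NotDiscrete
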